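import Pool.Agent.TH816.RP.Ent2
import Pool.Agent.TH816.RP.Comb
import Pool.Agent.TH816.RR.Col

/-! # Counting words: effective amplification (helper2) -/

set_option autoImplicit false

open Finset

namespace Pool.Agent.T6.H2.RS

open Pool.Agent.TH779.Ord (fn)
open Pool.Agent.TH816.RR (Gr)
open Pool.Agent.TH816.RP (WordFam blocks exists_long card_words div_lt)

/-- closed under subwords -/
def SubC {U : Type} (O : ∀ m : ℕ, (Fin (m + 1) → U) → Prop) : Prop :=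
  ∀ (M : ℕ) (w : Fin (M + 1) → U), O M w → ∀ (s m : ℕ) (_ : s + (m + 1) ≤ M + 1),
    O m (fun i : Fin (m + 1) => w ⟨s + i, by omega⟩)

open Classical in
theorem blocksC {U : Type} [Fintype U] {O : ∀ m : ℕ, (Fin (m + 1) → U) → Prop} (hO : SubC O) (m M k : ℕ)
    (hk : k * (m + 1) ≤ M + 1) :
    (univ.filter (fun w : Fin (M + 1) → U => O M w)).card ≤
      (univ.filter (fun w : Fin (m + 1) → U => O m w)).card ^ k * (Fintype.card U) ^ (M + 1 - k * (m + 1)) := by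
  have hW : WordFam U (fun _ => O) := ⟨fun _ _ _ _ _ h => h, fun _ M w h s m hs => hO M w h s m hs⟩
  exact blocks hW m M 0 k hk

open Classical in
/-- the amplification: a bound with a bounded factor for the long words gives the bound for the words of length
`m + 1` -/
theorem eff (φ m : ℕ) (hφ1 : 1 ≤ φ) (B : ℝ) (hB : 0 < B) : ∃ M₀ : ℕ, ∀ M : ℕ, M₀ ≤ M →
    ∀ (U : Type) [Fintype U] (_ : Fintype.card U = φ) (O : ∀ m : ℕ, (Fin (m + 1) → U) → Prop), SubC O →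
    B ^ (M + 1) ≤ φ * ((univ.filter (fun w : Fin (M + 1) → U => O M w)).card : ℝ) →
    B ^ (m + 1) ≤ ((univ.filter (fun w : Fin (m + 1) → U => O m w)).card : ℝ) := by
  have hφR : (1 : ℝ) ≤ (φ : ℝ) := by exact_mod_cast hφ1
  have hBm : 0 < B ^ (m + 1) := pow_pos hB _
  obtain ⟨V, hV⟩ : ∃ V : ℕ, V = ⌈B ^ (m + 1)⌉₊ - 1 := ⟨_, rfl⟩
  have hceil : 1 ≤ ⌈B ^ (m + 1)⌉₊ := Nat.one_le_ceil_iff.2 hBm
  have hV1 : (V : ℝ) < B ^ (m + 1) := by
    have h1 := Nat.ceil_lt_add_one hBm.le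
    have h2 : (V : ℝ) + 1 = ⌈B ^ (m + 1)⌉₊ := by
      have : V + 1 = ⌈B ^ (m + 1)⌉₊ := by omega
      exact_mod_cast this
    linarith
  have hV2 : ∀ W : ℕ, (W : ℝ) < B ^ (m + 1) → W ≤ V := by
    intro W hW
    have := Nat.lt_ceil.2 hW
    omega
  obtain ⟨ρ, hρ⟩ : ∃ ρ : ℝ, ρ = (V : ℝ) / B ^ (m + 1) := ⟨_, rfl⟩
  have hρ0 : 0 ≤ ρ := by rw [hρ]; positivity
  have hρ1 : ρ < 1 := by rw [hρ]; exact (div_lt_one hBm).2 hV1
  obtain ⟨k0, hk0⟩ := exists_pow_lt_of_lt_one (show (0 : ℝ) < 1 / (φ : ℝ) ^ (m + 1) by positivity) hρ1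
  refine ⟨(k0 + 1) * (m + 1), fun M hM U _ hU O hO hlong => ?_⟩
  by_contra hcon
  push Not at hcon
  obtain ⟨W, hWdef⟩ : ∃ W : ℕ, W = (univ.filter (fun w : Fin (m + 1) → U => O m w)).card := ⟨_, rfl⟩
  rw [← hWdef] at hcon
  have hWV := hV2 W hcon
  obtain ⟨k, hk⟩ : ∃ k, k = (M + 1) / (m + 1) := ⟨_, rfl⟩
  obtain ⟨r, hr⟩ : ∃ r, r = (M + 1) % (m + 1) := ⟨_, rfl⟩
  have hkr : k * (m + 1) + r = M + 1 := by rw [hk, hr]; exact Nat.div_add_mod' _ _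
  have hrm : r ≤ m := by rw [hr]; exact Nat.lt_succ_iff.1 (Nat.mod_lt _ (by omega))
  have hkk : k0 + 1 ≤ k := by
    rw [hk]
    exact (Nat.le_div_iff_mul_le (by omega)).2 (by omega)
  have h4 := blocksC hO m M k (by omega)
  rw [← hWdef, hU, show M + 1 - k * (m + 1) = r by omega] at h4
  have h5 : B ^ (k * (m + 1) + r) ≤ (W : ℝ) ^ k * (φ : ℝ) ^ (r + 1) := by
    rw [hkr]
    refine hlong.trans ?_
    have h6 : ((univ.filter (fun w : Fin (M + 1) → U => O M w)).card : ℝ) ≤ (W : ℝ) ^ k * (φ : ℝ) ^ r := by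
      exact_mod_cast h4
    calc (φ : ℝ) * ((univ.filter (fun w : Fin (M + 1) → U => O M w)).card : ℝ)
        ≤ φ * ((W : ℝ) ^ k * (φ : ℝ) ^ r) := mul_le_mul_of_nonneg_left h6 (by linarith)
      _ = _ := by ring
  rcases lt_or_ge B 1 with hB1 | hB1
  · -- `W = 0`
    have h1 : (W : ℝ) < 1 := hcon.trans_le (pow_le_one₀ hB.le hB1.le)
    have h2 : W = 0 := by
      have : W < 1 := by exact_mod_cast h1
      omega
    rw [h2] at h5
    have h3 : ((0 : ℕ) : ℝ) ^ k = 0 := by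
      rw [Nat.cast_zero]
      exact zero_pow (by omega)
    rw [h3, zero_mul] at h5
    exact absurd h5 (not_le.2 (pow_pos hB _))
  · -- `B ≥ 1`
    have h0 : (W : ℝ) / B ^ (m + 1) ≤ ρ := by
      rw [hρ]
      exact div_le_div_of_nonneg_right (by exact_mod_cast hWV) hBm.le
    have h1 : ρ ^ k < 1 / (φ : ℝ) ^ (m + 1) :=
      lt_of_le_of_lt (pow_le_pow_of_le_one hρ0 hρ1.le (by omega)) hk0
    have h2 : (1 : ℝ) ≤ ((W : ℝ) / B ^ (m + 1)) ^ k * (φ : ℝ) ^ (m + 1) := by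
      have h3 : (1 : ℝ) ≤ B ^ r := one_le_pow₀ hB1
      have h4 : (φ : ℝ) ^ (r + 1) ≤ (φ : ℝ) ^ (m + 1) := pow_le_pow_right₀ hφR (by omega)
      rw [div_pow, ← pow_mul, mul_comm (m + 1) k, div_mul_eq_mul_div, le_div_iff₀ (by positivity),
        one_mul]
      calc B ^ (k * (m + 1)) ≤ B ^ (k * (m + 1)) * B ^ r := le_mul_of_one_le_right (by positivity) h3
        _ = B ^ (k * (m + 1) + r) := (pow_add _ _ _).symm
        _ ≤ (W : ℝ) ^ k * (φ : ℝ) ^ (r + 1) := h5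
        _ ≤ (W : ℝ) ^ k * (φ : ℝ) ^ (m + 1) := by gcongr
    have h3 : (0 : ℝ) < (φ : ℝ) ^ (m + 1) := by positivity
    have h6 : ((W : ℝ) / B ^ (m + 1)) ^ k ≤ ρ ^ k := pow_le_pow_left₀ (by positivity) h0 k
    rw [lt_div_iff₀ h3] at h1
    have h7 := mul_le_mul_of_nonneg_right h6 h3.le
    linarith

open Classical in
/-- the entropy bound -/
theorem ent (φ m : ℕ) (hφ1 : 1 ≤ φ) (η : ℝ) (hη : 0 < η) : ∃ T₀ : ℕ, ∀ T : ℕ, T₀ ≤ T → 1 ≤ T →
    ∀ (U : Type) [Fintype U] [Nonempty U] (_ : Fintype.card U = φ) (O O' : ∀ m : ℕ, (Fin (m + 1) → U) → Prop),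
    SubC O → (∀ M, ((univ.filter (fun w : Fin (M + 1) → U => O' M w)).card : ℝ) ≤
      φ * ((univ.filter (fun w : Fin (M + 1) → U => O M w)).card : ℝ)) → ∀ K : ℕ,
    (∀ a : Fin T → U, ∃ P : Finset (Fin (T * K)), (T : ℝ) * (η / (2 + Real.log φ)) ≤
        ∑ g : Fin T, fn (2 + Real.log φ) (P.filter (fun x : Fin (T * K) => (x : ℕ) / K = (g : ℕ))).card ∧
      ∀ (m : ℕ) (x : Fin (m + 1) → Fin (T * K)), (∀ i, x i ∈ P) → StrictMono x →
        (∀ z ∈ P, ∀ i : Fin m, x i.castSucc < z → z < x i.succ → False) →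
        O' m (fun i => a ⟨(x i : ℕ) / K, div_lt (x i)⟩)) →
    (Real.exp (-(2 / η + 1)) * φ / (2 + Real.log φ)) ^ (m + 1) ≤
      ((univ.filter (fun w : Fin (m + 1) → U => O m w)).card : ℝ) := by
  have hφR : (1 : ℝ) ≤ (φ : ℝ) := by exact_mod_cast hφ1
  have hφ0 : (0 : ℝ) < (φ : ℝ) := by linarith
  have hlog := Real.log_nonneg hφR
  obtain ⟨lam, hlamd⟩ : ∃ lam : ℝ, lam = 2 + Real.log φ := ⟨_, rfl⟩
  have hlam : 2 ≤ lam := by rw [hlamd]; linarith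
  have hlam0 : 0 < lam := by linarith
  obtain ⟨B, hBd⟩ : ∃ B : ℝ, B = Real.exp (-(2 / η + 1)) * φ / (2 + Real.log φ) := ⟨_, rfl⟩
  have hB : 0 < B := by rw [hBd]; positivity
  obtain ⟨M₀, hM₀⟩ := eff φ m hφ1 B hB
  obtain ⟨T₀, hT₀⟩ := exists_nat_ge (((M₀ : ℝ) + 1) * (lam / η))
  refine ⟨T₀, fun T hT hT1 U _ _ hU O O' hO hOO K hpat => ?_⟩
  rw [← hBd]
  rw [← hlamd] at hpat
  obtain ⟨M, h1, h2⟩ := exists_long O' lam (η / lam) hlam (by positivity) T K hT1 hpat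
  have hM : M₀ ≤ M := by
    have h3 : ((M₀ : ℝ) + 1) * (lam / η) ≤ T := hT₀.trans (by exact_mod_cast hT)
    have h4 : ((M₀ : ℝ) + 1) ≤ T * (η / lam) := by
      have h5 := mul_le_mul_of_nonneg_right h3 (show 0 ≤ η / lam by positivity)
      have h6 : ((M₀ : ℝ) + 1) * (lam / η) * (η / lam) = M₀ + 1 := by field_simp
      rwa [h6] at h5
    have h5 : (M₀ : ℝ) ≤ M := by linarith
    exact_mod_cast h5
  refine hM₀ M hM U hU O hO (le_trans ?_ (hOO M))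
  refine le_trans (pow_le_pow_left₀ hB.le ?_ (M + 1)) h2
  rw [hU]
  have e : 2 / (lam * (η / lam)) = 2 / η := by field_simp
  rw [e, hBd, ← hlamd]
  have e1 : (φ : ℝ) * Real.exp (-1) ≤ (φ : ℝ) ^ (1 - 1 / lam) := by
    have h3 : (φ : ℝ) = Real.exp (Real.log φ) := (Real.exp_log hφ0).symm
    rw [Real.rpow_def_of_pos hφ0]
    nth_rewrite 1 [h3]
    rw [← Real.exp_add]
    apply Real.exp_le_exp.2
    have h4 : Real.log φ * (1 - 1 / lam) = Real.log φ - Real.log φ / lam := by ring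
    have h5 : Real.log φ / lam ≤ 1 := by
      rw [div_le_one hlam0, hlamd]
      linarith
    rw [h4]
    linarith
  have e2 : Real.exp (-(2 / η + 1)) = Real.exp (-1) / Real.exp (2 / η) := by
    rw [← Real.exp_sub]; ring_nf
  rw [e2]
  have e3 : Real.exp (-1) / Real.exp (2 / η) * φ / lam = (φ * Real.exp (-1)) / (lam * Real.exp (2 / η)) := by
    field_simp
  rw [e3]
  exact div_le_div_of_nonneg_right e1 (by positivity)

end Pool.Agent.T6.H2.RS
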