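import Pool.Agent.T6.H2.RS.Good
import Pool.Agent.T6.H2.RS.Cnt

/-! # The number of the residue patterns of isolated strings with gaps of size `H` (helper2) -/

set_option autoImplicit false

open Finset Filter

namespace Pool.Agent.T6.H2.RS

open Pool.Agent.H256R2.SC (ff)
open Pool.Agent.H312R2.RG.C3 (ff_tendsto ff_lower ff_small ff_upper)
open Pool.Agent.TH779.Ord (fn)
open Pool.Agent.TH816.RR (StRR Gr eta0 eta0_pos eta0_le stRR)
open Pool.Agent.TH816.RP (card_words div_lt)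

/-- at every scale there are at least `B` words with many strings -/
def G (C c : ℝ) (q m : ℕ) (B : ℝ) : Prop :=
  ∃ X₀ : ℝ, ∀ X : ℝ, X₀ ≤ X → ∀ H : ℝ, Real.log X ≤ H → H ≤ c * ff X →
    B ≤ ({w : Fin (m + 1) → (ZMod q)ˣ | Occ q C X H m w}.ncard : ℝ)

theorem occ_mono {q m : ℕ} {C C' X H : ℝ} (hC : C ≤ C') (hH : 0 ≤ H) {w : Fin (m + 1) → (ZMod q)ˣ}
    (h : Occ q C X H m w) : Occ q C' X H m w := by
  refine h.trans ?_
  rw [Nat.cast_le]
  apply Set.ncard_le_ncard _ (strSet_finite _ _ _ _ _ _)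
  rintro n ⟨h1, h2, h3, h4, h5⟩
  exact ⟨h1, h2, h3, h4, fun i hi1 hi2 => (h5 i hi1 hi2).trans (mul_le_mul_of_nonneg_right hC hH)⟩

theorem G.mono {C C' c c' : ℝ} {q m : ℕ} {B B' : ℝ} (h : G C c q m B) (hq : 1 ≤ q) (hC : C ≤ C') (hc : c' ≤ c)
    (hB : B' ≤ B) : G C' c' q m B' := by
  have : NeZero q := ⟨by omega⟩
  obtain ⟨X₀, h⟩ := h
  obtain ⟨X₁, h1⟩ := Filter.eventually_atTop.1 ((ff_tendsto.eventually_ge_atTop 0).and (eventually_ge_atTop (1 : ℝ)))
  refine ⟨max X₀ X₁, fun X hX H hH1 hH2 => ?_⟩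
  obtain ⟨h2, h3⟩ := h1 X ((le_max_right _ _).trans hX)
  have h4 := h X ((le_max_left _ _).trans hX) H hH1 (hH2.trans (mul_le_mul_of_nonneg_right hc h2))
  refine hB.trans (h4.trans ?_)
  rw [Nat.cast_le]
  exact Set.ncard_le_ncard (fun w hw => occ_mono hC ((Real.log_nonneg h3).trans hH1) hw) (Set.toFinite _)

theorem G.max {C c : ℝ} {q m : ℕ} {B B' : ℝ} (h : G C c q m B) (h' : G C c q m B') : G C c q m (max B B') := by
  obtain ⟨X₀, h⟩ := h
  obtain ⟨X₁, h'⟩ := h'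
  exact ⟨Max.max X₀ X₁, fun X hX H hH1 hH2 => max_le (h X ((le_max_left _ _).trans hX) H hH1 hH2)
    (h' X ((le_max_right _ _).trans hX) H hH1 hH2)⟩

/-- the words which are shifted to a word of `O` -/
def Sh {q : ℕ} (O : ∀ m : ℕ, (Fin (m + 1) → (ZMod q)ˣ) → Prop) (m : ℕ) (v : Fin (m + 1) → (ZMod q)ˣ) : Prop :=
  ∃ (u : (ZMod q)ˣ) (w : Fin (m + 1) → (ZMod q)ˣ), (∀ i, (w i : ZMod q) + 1 = v i + u) ∧ O m w

open Classical in
theorem card_Sh {q : ℕ} [NeZero q] (O : ∀ m : ℕ, (Fin (m + 1) → (ZMod q)ˣ) → Prop) (m : ℕ) :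
    (univ.filter (fun v : Fin (m + 1) → (ZMod q)ˣ => Sh O m v)).card ≤
      q.totient * (univ.filter (fun w : Fin (m + 1) → (ZMod q)ˣ => O m w)).card := by
  have h1 : ((univ : Finset (ZMod q)ˣ) ×ˢ (univ.filter (fun w : Fin (m + 1) → (ZMod q)ˣ => O m w))).card =
      q.totient * (univ.filter (fun w : Fin (m + 1) → (ZMod q)ˣ => O m w)).card := by
    rw [card_product, card_univ, ZMod.card_units_eq_totient]
  rw [← h1]
  have hex : ∀ v : Fin (m + 1) → (ZMod q)ˣ, ∃ y : (ZMod q)ˣ × (Fin (m + 1) → (ZMod q)ˣ), Sh O m v →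
      (∀ i, (y.2 i : ZMod q) + 1 = v i + y.1) ∧ O m y.2 := by
    intro v
    by_cases h : Sh O m v
    · obtain ⟨u, w, h2, h3⟩ := h
      exact ⟨(u, w), fun _ => ⟨h2, h3⟩⟩
    · exact ⟨(1, fun _ => 1), fun h' => absurd h' h⟩
  choose y hy using hex
  apply card_le_card_of_injOn y
  · intro v hv
    have h2 := hy v (mem_filter.1 hv).2
    rw [mem_coe, mem_product]
    exact ⟨mem_univ _, mem_filter.2 ⟨mem_univ _, h2.2⟩⟩
  · intro v hv v' hv' hvv
    have h2 := (hy v (mem_filter.1 hv).2).1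
    have h3 := (hy v' (mem_filter.1 hv').2).1
    funext i
    have h4 := h2 i
    have h5 := h3 i
    rw [← hvv] at h5
    rw [h4] at h5
    exact Units.ext (add_right_cancel h5)

open Classical in
theorem ncard_eq {U : Type} [Fintype U] (m : ℕ) (O : (Fin (m + 1) → U) → Prop) :
    {w : Fin (m + 1) → U | O w}.ncard = (univ.filter (fun w : Fin (m + 1) → U => O w)).card := by
  rw [← Set.ncard_coe_finset]
  congr 1
  ext w
  simp

/-- a positive proportion of the words -/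
theorem lin (h : StRR) (m : ℕ) : ∃ κ C c : ℝ, 0 < κ ∧ 0 < c ∧ ∀ q : ℕ, 1 ≤ q →
    G C c q m (κ * (q.totient : ℝ) ^ m) ∧ (Squarefree q → G C c q m (κ * (q.totient : ℝ) ^ (m + 1))) := by
  classical
  obtain ⟨T, hT⟩ := exists_nat_ge (((m + 1 : ℕ) : ℝ) / eta0)
  have hη := eta0_pos
  rw [div_le_iff₀ hη] at hT
  have hT1 : 1 ≤ T := by
    by_contra hlt
    have : T = 0 := by omega
    rw [this] at hT
    push_cast at hT
    have : (0 : ℝ) ≤ m := Nat.cast_nonneg _
    linarith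
  obtain ⟨K, k, hk, hTk, C, c, hC, hc, hgood⟩ := good h 1 le_rfl T hT1
  -- the subwords
  have hword : ∀ q : ℕ, 1 ≤ q → ∃ X₀ : ℝ, ∀ X : ℝ, X₀ ≤ X → ∀ H : ℝ, Real.log X ≤ H → H ≤ c * ff X →
      ∀ a : Fin K → (ZMod q)ˣ, ∃ j : Fin (m + 1) → Fin K, StrictMono j ∧ Sh (Occ q C X H) m (fun i => a (j i)) ∧
        (Squarefree q → Occ q C X H m (fun i => a (j i))) := by
    intro q hq
    obtain ⟨X₀, hX₀⟩ := hgood q hq
    refine ⟨X₀, fun X hX H hH1 hH2 a => ?_⟩
    obtain ⟨u, P, hu, hP, hocc⟩ := hX₀ X hX H hH1 hH2 a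
    have hcard : m + 1 ≤ P.card := by
      have h1 : ∑ g : Fin T, fn 1 (((Gr K T k).filter (fun j : Fin K => (j : ℕ) / k = g)).filter
          (fun j => j ∈ P)).card ≤ P.card := by
        have h2 : ∀ x : ℕ, fn 1 x ≤ x := fun x => Pool.Agent.TH779.Ord.fn_le zero_le_one x
        calc _ ≤ ∑ g : Fin T, ((((Gr K T k).filter (fun j : Fin K => (j : ℕ) / k = g)).filter
              (fun j => j ∈ P)).card : ℝ) := sum_le_sum fun g _ => h2 _
          _ = ((∑ g : Fin T, (((Gr K T k).filter (fun j : Fin K => (j : ℕ) / k = g)).filter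
              (fun j => j ∈ P)).card : ℕ) : ℝ) := by push_cast; rfl
          _ ≤ P.card := by
              have h4 : ∑ g : Fin T, (((Gr K T k).filter (fun j : Fin K => (j : ℕ) / k = g)).filter
                  (fun j => j ∈ P)).card ≤ P.card := by
                rw [← card_biUnion]
                · apply card_le_card
                  intro j hj
                  rw [mem_biUnion] at hj
                  obtain ⟨g, _, hg⟩ := hj
                  exact (mem_filter.1 hg).2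
                · intro g _ g' _ hne
                  rw [Function.onFun, disjoint_left]
                  intro j hj hj'
                  have h5 := (mem_filter.1 (mem_filter.1 hj).1).2
                  have h6 := (mem_filter.1 (mem_filter.1 hj').1).2
                  exact hne (Fin.ext (h5.symm.trans h6))
              exact_mod_cast h4
      have h2 : ((m + 1 : ℕ) : ℝ) ≤ P.card := by
        rw [div_one] at hP
        linarith
      exact_mod_cast h2
    set e := P.orderEmbOfFin rfl with he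
    obtain ⟨w, hw1, hw2⟩ := hocc m (fun i => e (Fin.castLE hcard i)) (fun i => P.orderEmbOfFin_mem rfl _)
      (fun i j hij => e.strictMono (by simpa using hij)) (by
        intro z hz i hz1 hz2
        have h1 : z ∈ Set.range e := by
          rw [he, Finset.range_orderEmbOfFin]
          exact hz
        obtain ⟨k, rfl⟩ := h1
        have h2 := e.strictMono.lt_iff_lt.1 hz1
        have h3 := e.strictMono.lt_iff_lt.1 hz2
        rw [Fin.lt_def] at h2 h3
        simp at h2 h3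
        omega)
    refine ⟨fun i => e (Fin.castLE hcard i), ?_, ⟨u, w, hw1, hw2⟩, fun hsq => ?_⟩
    · intro i j hij
      exact e.strictMono (by simpa using hij)
    · have e1 : (fun i => a (e (Fin.castLE hcard i))) = w := by
        funext i
        have h1 := hw1 i
        rw [hu hsq, Units.val_one] at h1
        exact Units.ext (add_right_cancel h1).symm
      rw [e1]
      exact hw2
  have hmK : m + 1 ≤ K := by
    obtain ⟨X₀, hX₀⟩ := hword 1 le_rfl
    obtain ⟨X₁, hX₁⟩ := Filter.eventually_atTop.1 (((ff_lower).and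
      ((Real.tendsto_log_atTop.comp Real.tendsto_log_atTop).eventually_ge_atTop (1 / c))).and
        ((Real.tendsto_log_atTop).eventually_ge_atTop 1))
    obtain ⟨⟨h1, h2⟩, h3⟩ := hX₁ (Max.max X₀ X₁) (le_max_right _ _)
    obtain ⟨j, hj, _⟩ := hX₀ (Max.max X₀ X₁) (le_max_left _ _) (Real.log (Max.max X₀ X₁)) le_rfl (by
      simp only [Function.comp] at h2
      rw [div_le_iff₀ hc] at h2
      have h4 := mul_le_mul_of_nonneg_left h1 hc.le
      have h5 := mul_le_mul_of_nonneg_left h2 (show 0 ≤ Real.log (Max.max X₀ X₁) by linarith)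
      linarith) (fun _ => 1)
    simpa using Fintype.card_le_of_injective j hj.injective
  have hch : (0 : ℝ) < (K.choose (m + 1) : ℝ) := by exact_mod_cast Nat.choose_pos hmK
  refine ⟨1 / (K.choose (m + 1) : ℝ), C, c, by positivity, hc, fun q hq => ?_⟩
  have : NeZero q := ⟨by omega⟩
  have hφ : 0 < q.totient := Nat.totient_pos.2 (by omega)
  have hφr : (0 : ℝ) < q.totient := by exact_mod_cast hφ
  obtain ⟨X₀, hX₀⟩ := hword q hq
  refine ⟨⟨X₀, fun X hX H hH1 hH2 => ?_⟩, fun hsq => ⟨X₀, fun X hX H hH1 hH2 => ?_⟩⟩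
  · have h1 := card_words (α := (ZMod q)ˣ) (m + 1) K (fun w => Sh (Occ q C X H) m w) (fun a => by
      obtain ⟨j, hj1, hj2, _⟩ := hX₀ X hX H hH1 hH2 a
      exact ⟨j, hj1, hj2⟩)
    have h2 := card_Sh (Occ q C X H) m
    rw [ZMod.card_units_eq_totient] at h1
    rw [ncard_eq]
    have h3 : (q.totient : ℝ) ^ (m + 1) ≤ (K.choose (m + 1) : ℝ) * (q.totient *
        ((univ.filter (fun w : Fin (m + 1) → (ZMod q)ˣ => Occ q C X H m w)).card : ℝ)) := by
      exact_mod_cast h1.trans (Nat.mul_le_mul_left _ h2)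
    have h4 : (q.totient : ℝ) ^ m ≤ (K.choose (m + 1) : ℝ) *
        ((univ.filter (fun w : Fin (m + 1) → (ZMod q)ˣ => Occ q C X H m w)).card : ℝ) := by
      apply le_of_mul_le_mul_right _ hφr
      calc (q.totient : ℝ) ^ m * q.totient = (q.totient : ℝ) ^ (m + 1) := (pow_succ _ _).symm
        _ ≤ _ := h3
        _ = _ := by ring
    rw [div_mul_eq_mul_div, one_mul, div_le_iff₀ hch]
    linarith
  · have h1 := card_words (α := (ZMod q)ˣ) (m + 1) K (fun w => Occ q C X H m w) (fun a => by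
      obtain ⟨j, hj1, _, hj2⟩ := hX₀ X hX H hH1 hH2 a
      exact ⟨j, hj1, hj2 hsq⟩)
    rw [ZMod.card_units_eq_totient] at h1
    rw [ncard_eq, div_mul_eq_mul_div, one_mul, div_le_iff₀ hch, mul_comm]
    exact_mod_cast h1

/-- the entropy bound, with constants which depend only on `φ(q)` -/
theorem entOne (h : StRR) (m φ₀ : ℕ) (hφ₀ : 1 ≤ φ₀) : ∃ C c : ℝ, 0 < c ∧ ∀ q : ℕ, 1 ≤ q → q.totient = φ₀ →
    G C c q m ((Real.exp (-(2 / eta0 + 1)) * q.totient / (2 + Real.log q.totient)) ^ (m + 1)) := by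
  classical
  obtain ⟨T₀, hT₀⟩ := ent φ₀ m hφ₀ eta0 eta0_pos
  have hφR : (1 : ℝ) ≤ (φ₀ : ℝ) := by exact_mod_cast hφ₀
  have hlog := Real.log_nonneg hφR
  obtain ⟨K, k, hk, hTk, C, c, hC, hc, hgood⟩ := good h (2 + Real.log φ₀) (by linarith) (Max.max T₀ 1)
    (le_max_right _ _)
  refine ⟨C, c, hc, fun q hq hqφ => ?_⟩
  have : NeZero q := ⟨by omega⟩
  obtain ⟨X₀, hX₀⟩ := hgood q hq
  refine ⟨X₀, fun X hX H hH1 hH2 => ?_⟩
  rw [ncard_eq, hqφ]
  refine hT₀ (Max.max T₀ 1) (le_max_left _ _) (le_max_right _ _) (ZMod q)ˣ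
    (by rw [ZMod.card_units_eq_totient, hqφ]) (Occ q C X H) (Sh (Occ q C X H))
    (fun M w hw s m hs => occ_sub q C X H M w hw s m hs) (fun M => ?_) k ?_
  · have := card_Sh (Occ q C X H) M
    rw [hqφ] at this
    exact_mod_cast this
  · intro a
    obtain ⟨T, hTd⟩ : ∃ T, T = Max.max T₀ 1 := ⟨_, rfl⟩
    obtain ⟨cl, hcl⟩ : ∃ cl : Fin K → (ZMod q)ˣ, ∀ j : Fin K, ∀ hj : (j : ℕ) / k < Max.max T₀ 1,
        cl j = a ⟨(j : ℕ) / k, hj⟩ :=
      ⟨fun j => if hj : (j : ℕ) / k < Max.max T₀ 1 then a ⟨(j : ℕ) / k, hj⟩ else 1, fun j hj => by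
        simp only [dif_pos hj]⟩
    obtain ⟨u, P, _, hP, hocc⟩ := hX₀ X hX H hH1 hH2 cl
    refine ⟨univ.filter (fun x : Fin (Max.max T₀ 1 * k) => Fin.castLE hTk x ∈ P), ?_, ?_⟩
    · refine hP.trans (le_of_eq ?_)
      apply sum_congr rfl
      intro g _
      congr 1
      symm
      apply card_bij (fun (x : Fin (Max.max T₀ 1 * k)) _ => Fin.castLE hTk x)
      · intro x hx
        simp only [mem_filter, mem_univ, true_and] at hx
        unfold Gr
        simp only [mem_filter, mem_univ, true_and, Fin.val_castLE]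
        exact ⟨⟨x.2, hx.2⟩, hx.1⟩
      · intro x _ y _ hxy
        exact Fin.castLE_injective hTk hxy
      · intro j hj
        unfold Gr at hj
        simp only [mem_filter, mem_univ, true_and] at hj
        refine ⟨⟨j, hj.1.1⟩, ?_, Fin.ext rfl⟩
        simp only [mem_filter, mem_univ, true_and]
        exact ⟨hj.2, hj.1.2⟩
    · intro m x hxP hx hno
      obtain ⟨w, hw1, hw2⟩ := hocc m (fun i => Fin.castLE hTk (x i)) (fun i => (mem_filter.1 (hxP i)).2)
        (fun i j hij => by rw [Fin.castLE_lt_castLE_iff]; exact hx hij) (by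
          intro z hz i hz1 hz2
          have hzT : (z : ℕ) < Max.max T₀ 1 * k := lt_of_lt_of_le (Fin.lt_def.1 hz2) (x i.succ).2.le
          refine hno ⟨z, hzT⟩ (mem_filter.2 ⟨mem_univ _, ?_⟩) i (Fin.lt_def.2 (Fin.lt_def.1 hz1))
            (Fin.lt_def.2 (Fin.lt_def.1 hz2))
          have e3 : Fin.castLE hTk (⟨z, hzT⟩ : Fin (Max.max T₀ 1 * k)) = z := Fin.ext rfl
          rw [e3]
          exact hz)
      refine ⟨u, w, fun i => ?_, hw2⟩
      rw [hw1 i]
      congr 2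
      exact hcl _ (div_lt (x i))

theorem entAll (h : StRR) (m N : ℕ) : ∃ C c : ℝ, 0 < c ∧ ∀ q : ℕ, 1 ≤ q → q.totient ≤ N →
    G C c q m ((Real.exp (-(2 / eta0 + 1)) * q.totient / (2 + Real.log q.totient)) ^ (m + 1)) := by
  induction N with
  | zero =>
    refine ⟨1, 1, one_pos, fun q hq h1 => ?_⟩
    have := Nat.totient_pos.2 (show 0 < q by omega)
    omega
  | succ N ih =>
    obtain ⟨C₁, c₁, hc₁, h₁⟩ := ih
    obtain ⟨C₂, c₂, hc₂, h₂⟩ := entOne h m (N + 1) (by omega)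
    refine ⟨Max.max C₁ C₂, min c₁ c₂, lt_min hc₁ hc₂, fun q hq hN => ?_⟩
    rcases Nat.lt_or_ge N q.totient with h3 | h3
    · exact (h₂ q hq (by omega)).mono hq (le_max_right _ _) (min_le_right _ _) le_rfl
    · exact (h₁ q hq h3).mono hq (le_max_left _ _) (min_le_left _ _) le_rfl

/-- large moduli -/
theorem powLarge (h : StRR) (m : ℕ) (ε : ℝ) (hε : 0 < ε) : ∃ (N : ℕ) (C c : ℝ), 0 < c ∧ ∀ q : ℕ, 1 ≤ q →
    N ≤ q.totient → G C c q m ((q.totient : ℝ) ^ ((1 - ε) * (m + 1 : ℕ))) := by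
  classical
  obtain ⟨L, hL⟩ := exists_nat_ge (2 / ε)
  have hL0 : (0 : ℝ) < L := lt_of_lt_of_le (by positivity) hL
  have hL1 : 1 ≤ L := by
    have : 0 < L := by exact_mod_cast hL0
    omega
  rw [div_le_iff₀ hε] at hL
  obtain ⟨M, hM⟩ : ∃ M, M + 1 = L * (m + 1) := ⟨L * (m + 1) - 1, by
    have : 1 ≤ L * (m + 1) := Nat.mul_pos hL1 (by omega)
    omega⟩
  obtain ⟨κ, C, c, hκ, hc, hlin⟩ := lin h M
  obtain ⟨N, hN⟩ := exists_nat_gt (1 / κ)
  refine ⟨N, C, c, hc, fun q hq hNq => ?_⟩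
  have : NeZero q := ⟨by omega⟩
  obtain ⟨⟨X₀, hX₀⟩, -⟩ := hlin q hq
  have hφ : 1 ≤ q.totient := Nat.totient_pos.2 (by omega)
  have hφr : (1 : ℝ) ≤ q.totient := by exact_mod_cast hφ
  have hφ0 : (0 : ℝ) < q.totient := by linarith
  refine ⟨X₀, fun X hX H hH1 hH2 => ?_⟩
  have h1 := hX₀ X hX H hH1 hH2
  rw [ncard_eq] at h1 ⊢
  have h2 := blocksC (U := (ZMod q)ˣ) (O := Occ q C X H) (fun M w hw s m hs => occ_sub q C X H M w hw s m hs) m M L
    (by omega)
  rw [show M + 1 - L * (m + 1) = 0 by omega, pow_zero, mul_one] at h2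
  obtain ⟨W, hW⟩ : ∃ W, W = (univ.filter (fun w : Fin (m + 1) → (ZMod q)ˣ => Occ q C X H m w)).card := ⟨_, rfl⟩
  rw [← hW] at h2 ⊢
  have h3 : κ * (q.totient : ℝ) ^ M ≤ (W : ℝ) ^ L := h1.trans (by exact_mod_cast h2)
  by_contra hcon
  push Not at hcon
  have h4 : (W : ℝ) ^ L < ((q.totient : ℝ) ^ ((1 - ε) * (m + 1 : ℕ))) ^ L :=
    pow_lt_pow_left₀ hcon (Nat.cast_nonneg _) (by omega)
  have h5 : ((q.totient : ℝ) ^ ((1 - ε) * (m + 1 : ℕ))) ^ L * (q.totient : ℝ) ≤ (q.totient : ℝ) ^ M := by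
    rw [← Real.rpow_natCast (((q.totient : ℝ) ^ ((1 - ε) * (m + 1 : ℕ)))) L, ← Real.rpow_mul hφ0.le,
      ← Real.rpow_natCast (q.totient : ℝ) M]
    nth_rewrite 2 [← Real.rpow_one (q.totient : ℝ)]
    rw [← Real.rpow_add hφ0]
    apply Real.rpow_le_rpow_of_exponent_le hφr
    have hMr : (M : ℝ) + 1 = L * ((m + 1 : ℕ) : ℝ) := by exact_mod_cast hM
    have h6 : (1 : ℝ) ≤ ((m + 1 : ℕ) : ℝ) := by
      push_cast
      have : (0 : ℝ) ≤ m := Nat.cast_nonneg _
      linarith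
    have h7 : 2 * 1 ≤ (L * ε) * ((m + 1 : ℕ) : ℝ) := mul_le_mul hL h6 (by norm_num) (by positivity)
    have e : (1 - ε) * ((m + 1 : ℕ) : ℝ) * L = L * ((m + 1 : ℕ) : ℝ) - L * ε * ((m + 1 : ℕ) : ℝ) := by ring
    rw [e, ← hMr]
    linarith
  have h6 : 1 < κ * (q.totient : ℝ) := by
    have h7 : (N : ℝ) ≤ q.totient := by exact_mod_cast hNq
    have h8 : 1 / κ < q.totient := lt_of_lt_of_le hN h7
    rw [div_lt_iff₀ hκ] at h8
    linarith
  have h7 : 0 < ((q.totient : ℝ) ^ ((1 - ε) * (m + 1 : ℕ))) ^ L := by positivity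
  have h8 : κ * (((q.totient : ℝ) ^ ((1 - ε) * (m + 1 : ℕ))) ^ L * (q.totient : ℝ)) ≤
      κ * (q.totient : ℝ) ^ M := mul_le_mul_of_nonneg_left h5 hκ.le
  nlinarith

/-- the constant -/
noncomputable def aa : ℝ := Real.exp (-(2 / eta0 + 1)) / 2

theorem aa_pos : 0 < aa := by unfold aa; positivity

theorem aa_le : aa ≤ 1 := by
  unfold aa
  have h1 : Real.exp (-(2 / eta0 + 1)) ≤ 1 := by
    rw [Real.exp_le_one_iff]
    have := eta0_pos
    have : 0 < 2 / eta0 := by positivity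
    linarith
  linarith

theorem ent_le (φ : ℕ) (hφ : 1 ≤ φ) (m : ℕ) : (aa * φ / (1 + Real.log φ)) ^ (m + 1) ≤
    (Real.exp (-(2 / eta0 + 1)) * φ / (2 + Real.log φ)) ^ (m + 1) := by
  have hφR : (1 : ℝ) ≤ (φ : ℝ) := by exact_mod_cast hφ
  have hlog := Real.log_nonneg hφR
  apply pow_le_pow_left₀ (by have := aa_pos; positivity)
  unfold aa
  rw [div_mul_eq_mul_div, div_div]
  apply div_le_div_of_nonneg_left (by positivity) (by positivity)
  linarith

/-- squarefree moduli -/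
theorem squarefree (m : ℕ) : ∃ κ C c : ℝ, 0 < κ ∧ 0 < c ∧ ∀ q : ℕ, Squarefree q →
    G C c q m (max (κ * (q.totient : ℝ) ^ (m + 1)) ((aa * q.totient / (1 + Real.log q.totient)) ^ (m + 1))) := by
  obtain ⟨κ, C₁, c₁, hκ, hc₁, h₁⟩ := lin stRR m
  obtain ⟨N, hN⟩ := exists_nat_ge (Real.exp (1 / κ))
  obtain ⟨C₂, c₂, hc₂, h₂⟩ := entAll stRR m N
  refine ⟨κ, Max.max C₁ C₂, min c₁ c₂, hκ, lt_min hc₁ hc₂, fun q hsq => ?_⟩
  have hq : 1 ≤ q := Nat.one_le_iff_ne_zero.2 hsq.ne_zero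
  have hφ : 1 ≤ q.totient := Nat.totient_pos.2 (by omega)
  have hφR : (1 : ℝ) ≤ (q.totient : ℝ) := by exact_mod_cast hφ
  have hlog := Real.log_nonneg hφR
  have g1 := ((h₁ q hq).2 hsq).mono hq (le_max_left C₁ C₂) (min_le_left c₁ c₂) le_rfl
  refine g1.max ?_
  rcases le_or_gt q.totient N with h3 | h3
  · exact (h₂ q hq h3).mono hq (le_max_right _ _) (min_le_right _ _) (ent_le _ hφ m)
  · refine g1.mono hq le_rfl le_rfl ?_
    rw [div_pow, mul_pow]
    have h4 : 1 / κ ≤ Real.log q.totient := by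
      rw [Real.le_log_iff_exp_le (by linarith)]
      exact hN.trans (by exact_mod_cast h3.le)
    have h5 : 1 / κ ≤ (1 + Real.log q.totient) ^ (m + 1) := by
      have h6 : (1 + Real.log q.totient) ^ 1 ≤ (1 + Real.log q.totient) ^ (m + 1) :=
        pow_le_pow_right₀ (by linarith) (by omega)
      rw [pow_one] at h6
      linarith
    rw [div_le_iff₀ hκ] at h5
    have h6 : aa ^ (m + 1) ≤ 1 := pow_le_one₀ aa_pos.le aa_le
    have h7 : 0 < (q.totient : ℝ) ^ (m + 1) := by positivity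
    rw [div_le_iff₀ (by positivity)]
    nlinarith

/-- all moduli -/
theorem allModuli (ε : ℝ) (hε : 0 < ε) : ∃ a : ℝ, 0 < a ∧ ∀ m : ℕ, ∃ C c : ℝ, 0 < c ∧ ∀ q : ℕ, 1 ≤ q →
    G C c q m ((a * (q.totient : ℝ) ^ (1 - ε)) ^ (m + 1)) := by
  have haa := aa_pos
  refine ⟨aa * (ε / (1 + ε)), by positivity, fun m => ?_⟩
  have ha1 : aa * (ε / (1 + ε)) ≤ 1 := by
    have h1 : ε / (1 + ε) ≤ 1 := (div_le_one (by positivity)).2 (by linarith)
    have h2 : 0 < ε / (1 + ε) := by positivity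
    nlinarith [aa_le]
  obtain ⟨N, C₁, c₁, hc₁, h₁⟩ := powLarge stRR m ε hε
  obtain ⟨C₂, c₂, hc₂, h₂⟩ := entAll stRR m N
  refine ⟨Max.max C₁ C₂, min c₁ c₂, lt_min hc₁ hc₂, fun q hq => ?_⟩
  have hφ : 1 ≤ q.totient := Nat.totient_pos.2 (by omega)
  have hφR : (1 : ℝ) ≤ (q.totient : ℝ) := by exact_mod_cast hφ
  have hφ0 : (0 : ℝ) < (q.totient : ℝ) := by linarith
  have hlog := Real.log_nonneg hφR
  rcases le_or_gt N q.totient with h3 | h3
  · refine (h₁ q hq h3).mono hq (le_max_left C₁ C₂) (min_le_left c₁ c₂) ?_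
    rw [Real.rpow_mul hφ0.le, Real.rpow_natCast]
    apply pow_le_pow_left₀ (by positivity)
    have h4 : 0 < (q.totient : ℝ) ^ (1 - ε) := by positivity
    nlinarith
  · refine (h₂ q hq h3.le).mono hq (le_max_right _ _) (min_le_right _ _) (le_trans ?_ (ent_le _ hφ m))
    apply pow_le_pow_left₀ (by positivity)
    rw [le_div_iff₀ (by positivity)]
    have h4 : Real.log q.totient ≤ (q.totient : ℝ) ^ ε / ε := Real.log_le_rpow_div hφ0.le hε
    have h5 : (1 : ℝ) ≤ (q.totient : ℝ) ^ ε := Real.one_le_rpow hφR hε.le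
    have h6 : ε / (1 + ε) * (1 + Real.log q.totient) ≤ (q.totient : ℝ) ^ ε := by
      rw [div_mul_eq_mul_div, div_le_iff₀ (by positivity)]
      rw [le_div_iff₀ hε] at h4
      nlinarith
    have h7 : (q.totient : ℝ) ^ (1 - ε) * (q.totient : ℝ) ^ ε = q.totient := by
      rw [← Real.rpow_add hφ0]
      norm_num
    have h8 : 0 < (q.totient : ℝ) ^ (1 - ε) := by positivity
    calc aa * (ε / (1 + ε)) * (q.totient : ℝ) ^ (1 - ε) * (1 + Real.log q.totient)
        = aa * (q.totient : ℝ) ^ (1 - ε) * (ε / (1 + ε) * (1 + Real.log q.totient)) := by ring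
      _ ≤ aa * (q.totient : ℝ) ^ (1 - ε) * (q.totient : ℝ) ^ ε := mul_le_mul_of_nonneg_left h6 (by positivity)
      _ = aa * ((q.totient : ℝ) ^ (1 - ε) * (q.totient : ℝ) ^ ε) := by ring
      _ = aa * q.totient := by rw [h7]

end Pool.Agent.T6.H2.RS
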