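import Pool.Agent.T6.H2.RS.Pat

/-! # Many isolated strings for each word of a good set (helper2) -/

set_option autoImplicit false

open Finset Filter

namespace Pool.Agent.T6.H2.RS

open Pool.Agent.H256R2.SC (ff)
open Pool.Agent.H312R2.RG.C3 (ff_tendsto ff_lower ff_small ff_upper)
open Pool.Agent.H362R2.RQ (exists_prime_mod ev_bad)
open Pool.Agent.TH779.Ord (fn)
open Pool.Agent.TH816.RR (StRR Gr eta0 eta0_pos)
open Pool.Agent.T6.H2.LF (nth_mono nth_mono_real)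

/-- the `n` such that the primes with the indices `n + 1, …, n + k` lie in `(X, 4X]`, in the classes `w 0, …, w (k-1)`
modulo `q`, all the `k + 1` gaps next to them are at least `H`, and the inner ones are at most `C H` -/
def StrSet (k q : ℕ) (w : Fin k → (ZMod q)ˣ) (C X H : ℝ) : Set ℕ :=
  {n : ℕ | X < Nat.nth Nat.Prime (n + 1) ∧ (Nat.nth Nat.Prime (n + k) : ℝ) ≤ 4 * X ∧
    (∀ i : Fin k, ((Nat.nth Nat.Prime (n + 1 + i) : ℕ) : ZMod q) = (w i : ZMod q)) ∧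
    (∀ i ≤ k, H ≤ (Nat.nth Nat.Prime (n + i + 1) : ℝ) - Nat.nth Nat.Prime (n + i)) ∧
    ∀ i, 1 ≤ i → i < k → (Nat.nth Nat.Prime (n + i + 1) : ℝ) - Nat.nth Nat.Prime (n + i) ≤ C * H}

theorem strSet_finite (k q : ℕ) (w : Fin k → (ZMod q)ˣ) (C X H : ℝ) : (StrSet k q w C X H).Finite := by
  refine (Set.finite_Iic ⌊4 * X⌋₊).subset ?_
  rintro n ⟨-, h2, -⟩
  rw [Set.mem_Iic]
  refine Nat.le_floor (le_trans ?_ h2)
  have h3 : n + k ≤ Nat.nth Nat.Prime (n + k) :=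
    (Nat.nth_strictMono Nat.infinite_setOfPred_prime).le_apply
  have h4 : n ≤ n + k := by omega
  exact_mod_cast h4.trans h3

/-- the words of length `m + 1` with many strings -/
def Occ (q : ℕ) (C X H : ℝ) (m : ℕ) (w : Fin (m + 1) → (ZMod q)ˣ) : Prop :=
  X ^ (7 / 8 : ℝ) ≤ ((StrSet (m + 1) q w C X H).ncard : ℝ)

/-- subwords -/
theorem occ_sub (q : ℕ) (C X H : ℝ) (M : ℕ) (w : Fin (M + 1) → (ZMod q)ˣ) (h : Occ q C X H M w) (s m : ℕ)
    (hs : s + (m + 1) ≤ M + 1) : Occ q C X H m (fun i : Fin (m + 1) => w ⟨s + i, by omega⟩) := by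
  refine h.trans ?_
  rw [Nat.cast_le]
  have hinj : Set.InjOn (fun n : ℕ => n + s) (StrSet (M + 1) q w C X H) := by
    intro a _ b _ hab
    simp only at hab
    omega
  rw [← hinj.ncard_image]
  apply Set.ncard_le_ncard _ (strSet_finite _ _ _ _ _ _)
  rintro _ ⟨n, ⟨h1, h2, h3, h4, h5⟩, rfl⟩
  refine ⟨?_, ?_, ?_, ?_, ?_⟩
  · exact h1.trans_le (nth_mono_real (show n + 1 ≤ n + s + 1 by omega))
  · exact (nth_mono_real (show n + s + (m + 1) ≤ n + (M + 1) by omega)).trans h2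
  · intro i
    have := h3 ⟨s + i, by omega⟩
    simp only at this ⊢
    rw [← this]
    congr 2
    omega
  · intro i hi
    have := h4 (s + i) (by omega)
    simp only
    rw [show n + s + i = n + (s + i) by ring]
    exact this
  · intro i hi1 hi2
    have := h5 (s + i) (by omega) (by omega)
    simp only
    rw [show n + s + i = n + (s + i) by ring]
    exact this

theorem good (h : StRR) (lam : ℝ) (hlam : 1 ≤ lam) (T : ℕ) (hT : 1 ≤ T) :
    ∃ K k : ℕ, 1 ≤ k ∧ T * k ≤ K ∧ ∃ C c : ℝ, 1 ≤ C ∧ 0 < c ∧ ∀ q : ℕ, 1 ≤ q → ∃ X0 : ℝ, ∀ X : ℝ, X0 ≤ X →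
    ∀ H : ℝ, Real.log X ≤ H → H ≤ c * ff X → ∀ A : Fin K → (ZMod q)ˣ,
    ∃ (u : (ZMod q)ˣ) (P : Finset (Fin K)), (Squarefree q → u = 1) ∧
      (T : ℝ) * (eta0 / lam) ≤ ∑ g : Fin T, fn lam
        (((Gr K T k).filter (fun j : Fin K => (j : ℕ) / k = g)).filter (fun j => j ∈ P)).card ∧
      ∀ (m : ℕ) (x : Fin (m + 1) → Fin K), (∀ i, x i ∈ P) → StrictMono x →
        (∀ z ∈ P, ∀ i : Fin m, x i.castSucc < z → z < x i.succ → False) →
        ∃ w : Fin (m + 1) → (ZMod q)ˣ, (∀ i, (w i : ZMod q) + 1 = A (x i) + u) ∧ Occ q C X H m w := by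
  classical
  obtain ⟨K, k, hk, hTk, C, c, hC, hc, hpc⟩ := piece h lam hlam T hT
  refine ⟨K, k, hk, hTk, C, c, hC, hc, ?_⟩
  intro q hq
  have : NeZero q := ⟨by omega⟩
  obtain ⟨X1, hX1⟩ := hpc q hq
  obtain ⟨M, hM⟩ : ∃ M : ℝ, M = ∑ m ∈ range K, (Fintype.card (Fin (m + 1) → (ZMod q)ˣ) : ℝ) + 1 := ⟨_, rfl⟩
  have hM1 : 1 ≤ M := by
    rw [hM]
    have : (0 : ℝ) ≤ ∑ m ∈ range K, (Fintype.card (Fin (m + 1) → (ZMod q)ˣ) : ℝ) :=
      sum_nonneg fun _ _ => Nat.cast_nonneg _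
    linarith
  have hc' : 0 < M * (C * c + 1) := by positivity
  obtain ⟨X2, hX2⟩ := Filter.eventually_atTop.1 ((ev_bad (M * (C * c + 1)) hc').and
    ((ff_small (C * c) (by positivity)).and ((ff_tendsto.eventually_ge_atTop 1).and
      (eventually_ge_atTop (Real.exp 1)))))
  refine ⟨max X1 X2, ?_⟩
  intro X hX H hlH hHc A
  obtain ⟨hbadX, hsmall, hffpos, hXe⟩ := hX2 X ((le_max_right _ _).trans hX)
  have hXpos : 0 < X := (Real.exp_pos 1).trans_le hXe
  have hlog : 1 ≤ Real.log X := by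
    rw [Real.le_log_iff_exp_le hXpos]; exact hXe
  have hH0 : 0 < H := by linarith
  have hCHf : C * H ≤ C * c * ff X := by
    have := mul_le_mul_of_nonneg_left hHc (show (0 : ℝ) ≤ C by linarith)
    linarith
  have hCH0 : 0 ≤ C * H := by positivity
  have hXnn : 0 ≤ X ^ (7 / 8 : ℝ) := Real.rpow_nonneg (by linarith) _
  have hcc : 0 ≤ C * c := by positivity
  have hff0 : 0 ≤ C * c * ff X + 1 := by
    have := mul_nonneg hcc (show (0 : ℝ) ≤ ff X by linarith)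
    linarith
  obtain ⟨Ws, hWs⟩ : ∃ Ws : ∀ m : ℕ, Finset (Fin (m + 1) → (ZMod q)ˣ), Ws = fun m => univ.filter
    (fun w => ¬ Occ q C X H m w) := ⟨_, rfl⟩
  have hWsm : ∀ m w, w ∈ Ws m ↔ ¬ Occ q C X H m w := by
    intro m w
    rw [hWs]
    simp only [mem_filter, mem_univ, true_and]
  obtain ⟨bad1, hbad1⟩ : ∃ bad1 : ∀ (m : ℕ), (Fin (m + 1) → (ZMod q)ˣ) → Finset ℕ, bad1 = fun m w =>
    ((strSet_finite (m + 1) q w C X H).toFinset).biUnion
      (fun n => Icc (Nat.nth Nat.Prime (n + 1) - ⌊C * H⌋₊) (Nat.nth Nat.Prime (n + 1))) := ⟨_, rfl⟩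
  obtain ⟨bad, hbaddef⟩ : ∃ bad : Finset ℕ, bad = (range K).biUnion (fun m => (Ws m).biUnion (bad1 m)) := ⟨_, rfl⟩
  have hbadcard : (bad.card : ℝ) ≤ X ^ (9 / 10 : ℝ) := by
    have hone : ∀ m, ∀ w ∈ Ws m, ((bad1 m w).card : ℝ) ≤ X ^ (7 / 8 : ℝ) * (C * c * ff X + 1) := by
      intro m w hw
      rw [hWsm] at hw
      have h1 : (bad1 m w).card ≤ (strSet_finite (m + 1) q w C X H).toFinset.card * (⌊C * H⌋₊ + 1) := by
        rw [hbad1]
        refine card_biUnion_le.trans ?_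
        refine (sum_le_card_nsmul _ _ (⌊C * H⌋₊ + 1) ?_).trans (le_of_eq (by rw [smul_eq_mul]))
        intro n _
        rw [Nat.card_Icc]
        omega
      unfold Occ at hw
      rw [not_le, Set.ncard_eq_toFinset_card _ (strSet_finite (m + 1) q w C X H)] at hw
      have h3 : ((⌊C * H⌋₊ + 1 : ℕ) : ℝ) ≤ C * c * ff X + 1 := by
        push_cast
        have := Nat.floor_le hCH0
        linarith
      calc ((bad1 m w).card : ℝ) ≤ (((strSet_finite (m + 1) q w C X H).toFinset.card * (⌊C * H⌋₊ + 1) : ℕ) : ℝ) := by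
            exact_mod_cast h1
        _ = ((strSet_finite (m + 1) q w C X H).toFinset.card : ℝ) * ((⌊C * H⌋₊ + 1 : ℕ) : ℝ) := by
            push_cast; ring
        _ ≤ _ := mul_le_mul hw.le h3 (Nat.cast_nonneg _) hXnn
    have hQ0 : 0 ≤ X ^ (7 / 8 : ℝ) * (C * c * ff X + 1) := mul_nonneg hXnn hff0
    have h1 : (bad.card : ℝ) ≤ (∑ m ∈ range K, (Fintype.card (Fin (m + 1) → (ZMod q)ˣ) : ℝ)) *
        (X ^ (7 / 8 : ℝ) * (C * c * ff X + 1)) := by
      have h2 : (bad.card : ℝ) ≤ ∑ m ∈ range K, (((Ws m).biUnion (bad1 m)).card : ℝ) := by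
        rw [hbaddef]
        exact_mod_cast card_biUnion_le
      refine h2.trans ?_
      rw [sum_mul]
      apply sum_le_sum
      intro m _
      have h3 : (((Ws m).biUnion (bad1 m)).card : ℝ) ≤ ∑ w ∈ Ws m, ((bad1 m w).card : ℝ) := by
        exact_mod_cast card_biUnion_le
      refine h3.trans ((sum_le_sum (hone m)).trans ?_)
      rw [sum_const, nsmul_eq_mul]
      apply mul_le_mul_of_nonneg_right _ hQ0
      exact_mod_cast card_le_univ _
    have h2 : (∑ m ∈ range K, (Fintype.card (Fin (m + 1) → (ZMod q)ˣ) : ℝ)) ≤ M := by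
      rw [hM]; linarith
    calc (bad.card : ℝ) ≤ _ := h1
      _ ≤ M * (X ^ (7 / 8 : ℝ) * (C * c * ff X + 1)) := mul_le_mul_of_nonneg_right h2 hQ0
      _ = X ^ (7 / 8 : ℝ) * (M * (C * c * ff X + 1)) := by ring
      _ ≤ X ^ (7 / 8 : ℝ) * (M * (C * c + 1) * ff X + 1) := by
          apply mul_le_mul_of_nonneg_left _ hXnn
          have h4 : M * 1 ≤ M * ff X := mul_le_mul_of_nonneg_left hffpos (by linarith)
          have e1 : M * (C * c * ff X + 1) = M * (C * c) * ff X + M := by ring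
          have e2 : M * (C * c + 1) * ff X + 1 = M * (C * c) * ff X + M * ff X + 1 := by ring
          rw [e1, e2]
          linarith
      _ ≤ _ := hbadX
  obtain ⟨n₀, u, P, hn1, hn2, hn3, hu, hsum, hpat⟩ :=
    hX1 X ((le_max_left _ _).trans hX) H hlH hHc A bad hbadcard
  refine ⟨u, P, hu, hsum, ?_⟩
  intro m x hxP hx hno
  obtain ⟨n, w, hw, hs1, hs2, hs3, hs4, hs5⟩ := hpat m x hxP hx hno
  refine ⟨w, hw, ?_⟩
  have hmK : m < K := by
    have := Fintype.card_le_of_injective x hx.injective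
    rw [Fintype.card_fin, Fintype.card_fin] at this
    omega
  by_contra hcon
  apply hn3
  rw [hbaddef, mem_biUnion]
  refine ⟨m, mem_range.2 hmK, ?_⟩
  rw [mem_biUnion]
  refine ⟨w, (hWsm m w).2 hcon, ?_⟩
  rw [hbad1]
  simp only
  rw [mem_biUnion]
  have hs1r : (n₀ : ℝ) ≤ Nat.nth Nat.Prime (n + 1) := by exact_mod_cast hs1
  refine ⟨n, ?_, ?_⟩
  · rw [Set.Finite.mem_toFinset]
    exact ⟨by linarith, by linarith, hs3, hs4, hs5⟩
  · rw [mem_Icc]
    have h2 : (Nat.nth Nat.Prime (n + 1) : ℝ) ≤ n₀ + C * H := (nth_mono_real (by omega)).trans hs2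
    have h3 : Nat.nth Nat.Prime (n + 1) - n₀ ≤ ⌊C * H⌋₊ := by
      apply Nat.le_floor
      rw [Nat.cast_sub hs1]
      linarith
    omega

end Pool.Agent.T6.H2.RS
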