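import Pool.Agent.TH816.RR.Fin
import Pool.Agent.T6.H2.LFc

/-! # Isolated strings of primes in prescribed classes in the record windows, at every scale (helper2) -/

set_option autoImplicit false

open Finset Filter

namespace Pool.Agent.T6.H2.RS

open Pool.Agent.H256R2.SC (ff)
open Pool.Agent.H312R2.RG.C3 (ff_tendsto ff_lower ff_small ff_upper)
open Pool.Agent.H362R2.RQ (exists_prime_mod ev_bad)
open Pool.Agent.H378R2 (yy)
open Pool.Agent.TH779.Ord (fn)
open Pool.Agent.TH816.RR (StRR Gr eta0 eta0_pos)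
open Pool.Agent.TH816.RP (nth_run)
open Pool.Agent.T6.H2.LF (nth_mono nth_mono_real)

/-- the string of the primes with the indices `n + 1, …, n + k`: they lie in `[n₀, n₀ + C H]`, in the classes `w i`, all
the `k + 1` gaps next to them are at least `H`, and the inner ones are at most `C H` -/
def Str (k q : ℕ) (w : Fin k → (ZMod q)ˣ) (C H : ℝ) (n₀ n : ℕ) : Prop :=
  n₀ ≤ Nat.nth Nat.Prime (n + 1) ∧ (Nat.nth Nat.Prime (n + k) : ℝ) ≤ n₀ + C * H ∧
  (∀ i : Fin k, ((Nat.nth Nat.Prime (n + 1 + i) : ℕ) : ZMod q) = (w i : ZMod q)) ∧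
  (∀ i ≤ k, H ≤ (Nat.nth Nat.Prime (n + i + 1) : ℝ) - Nat.nth Nat.Prime (n + i)) ∧
  ∀ i, 1 ≤ i → i < k → (Nat.nth Nat.Prime (n + i + 1) : ℝ) - Nat.nth Nat.Prime (n + i) ≤ C * H

theorem piece (h : StRR) (lam : ℝ) (hlam : 1 ≤ lam) (T : ℕ) (hT : 1 ≤ T) :
    ∃ K k : ℕ, 1 ≤ k ∧ T * k ≤ K ∧ ∃ C c : ℝ, 1 ≤ C ∧ 0 < c ∧ ∀ q : ℕ, 1 ≤ q → ∃ X0 : ℝ, ∀ X : ℝ, X0 ≤ X →
    ∀ H : ℝ, Real.log X ≤ H → H ≤ c * ff X → ∀ A : Fin K → (ZMod q)ˣ,
    ∀ bad : Finset ℕ, (bad.card : ℝ) ≤ X ^ (9 / 10 : ℝ) →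
    ∃ (n₀ : ℕ) (u : (ZMod q)ˣ) (P : Finset (Fin K)),
      X < n₀ ∧ (n₀ : ℝ) ≤ 3 * X ∧ n₀ ∉ bad ∧ (Squarefree q → u = 1) ∧
      (T : ℝ) * (eta0 / lam) ≤ ∑ g : Fin T, fn lam
        (((Gr K T k).filter (fun j : Fin K => (j : ℕ) / k = g)).filter (fun j => j ∈ P)).card ∧
      ∀ (m : ℕ) (x : Fin (m + 1) → Fin K), (∀ i, x i ∈ P) → StrictMono x →
        (∀ z ∈ P, ∀ i : Fin m, x i.castSucc < z → z < x i.succ → False) →
        ∃ (n : ℕ) (w : Fin (m + 1) → (ZMod q)ˣ), (∀ i, (w i : ZMod q) + 1 = A (x i) + u) ∧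
          Str (m + 1) q w C H n₀ n := by
  classical
  obtain ⟨K, k, hk, hTk, c0, hc0, hst⟩ := h lam hlam T hT
  have hK0 : 0 < K := lt_of_lt_of_le (Nat.mul_pos hT hk) hTk
  have hKr : (0 : ℝ) < K := by exact_mod_cast hK0
  obtain ⟨C, hC⟩ : ∃ C : ℝ, C = 2 + 2 * (K : ℝ) := ⟨_, rfl⟩
  have hC1 : 2 ≤ C := by rw [hC]; linarith
  refine ⟨K, k, hk, hTk, C, c0 / (2 * C), by linarith, by positivity, ?_⟩
  intro q hq1
  have hq0 : 0 < q := hq1
  have : NeZero q := ⟨hq0.ne'⟩
  obtain ⟨X1, hX1⟩ := hst q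
  have hev : ∀ᶠ y : ℝ in atTop, ∀ u : (ZMod q)ˣ, ∃ p : ℕ, p.Prime ∧ p ≡ (u : ZMod q).val [MOD q] ∧ y < p ∧
      (p : ℝ) ≤ (1 + 1 / C) * y := by
    rw [eventually_all]
    intro u
    exact exists_prime_mod q hq0 _ (ZMod.val_coe_unit_coprime u) (1 / C) (by positivity)
  obtain ⟨Y0, hY0⟩ := Filter.eventually_atTop.1 hev
  obtain ⟨X2, hX2⟩ := Filter.eventually_atTop.1 ((eventually_ge_atTop X1).and
    ((Real.tendsto_log_atTop.eventually_ge_atTop (|Y0| + 4)).and
      ((ff_tendsto.eventually_gt_atTop 0).and (eventually_ge_atTop ((q : ℝ) + 3)))))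
  refine ⟨X2, ?_⟩
  intro X hX H hlH hHc A bad hbad
  obtain ⟨hXX1, hlX, hffpos, hqX⟩ := hX2 X hX
  have hH : |Y0| + 4 ≤ H := hlX.trans hlH
  have hY0nn := abs_nonneg Y0
  have hHpos : 0 < H := by linarith
  have hqr : (0 : ℝ) ≤ q := Nat.cast_nonneg _
  have hCH2 : 2 * (C * H) ≤ c0 * ff X := by
    have h1 := mul_le_mul_of_nonneg_left hHc (show (0 : ℝ) ≤ 2 * C by linarith)
    have h2 : 2 * C * (c0 / (2 * C) * ff X) = c0 * ff X := by field_simp
    linarith
  have hCHnn : 0 ≤ C * H := by positivity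
  have hCHH : H ≤ C * H := by nlinarith
  set y : Fin K → ℝ := fun j => H * (1 + 2 * (j : ℕ)) with hy
  have hylow : ∀ j, H ≤ y j := by
    intro j
    simp only [hy]
    have : (0 : ℝ) ≤ (j : ℕ) := Nat.cast_nonneg _
    nlinarith
  have hyup : ∀ j, y j + H ≤ C * H := by
    intro j
    have h1 : (((j : ℕ) : ℝ)) + 1 ≤ K := by exact_mod_cast j.2
    have h2 := mul_le_mul_of_nonneg_left h1 hHpos.le
    simp only [hy]
    rw [hC]
    nlinarith
  have hex : ∀ j : Fin K, ∃ p : ℕ, p.Prime ∧ p ≡ (A j : ZMod q).val [MOD q] ∧ y j < p ∧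
      (p : ℝ) ≤ y j + H := by
    intro j
    have h1 := hylow j
    obtain ⟨p, hp, hpa, hp1, hp2⟩ := hY0 (y j) (by
      have := le_abs_self Y0
      linarith) (A j)
    refine ⟨p, hp, hpa, hp1, hp2.trans ?_⟩
    have h2 : 1 / C * y j ≤ 1 / C * (C * H) :=
      mul_le_mul_of_nonneg_left (by have := hyup j; linarith) (by positivity)
    have h3 : 1 / C * (C * H) = H := by field_simp
    linarith
  choose t htp hta htl htu using hex
  have htlt : ∀ i j : Fin K, i < j → H < (t j : ℝ) - t i := by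
    intro i j hij
    have h1 : (((i : ℕ) : ℝ)) + 1 ≤ (j : ℕ) := by exact_mod_cast hij
    have h2 := mul_le_mul_of_nonneg_left h1 hHpos.le
    have h3 := htl j
    have h4 := htu i
    simp only [hy] at h3 h4
    nlinarith
  have htinj : Function.Injective t := by
    intro i j hij
    rcases lt_trichotomy i j with h1 | h1 | h1
    · have := htlt i j h1
      rw [hij] at this
      linarith
    · exact h1
    · have := htlt j i h1
      rw [hij] at this
      linarith
  have htrk : ∀ i j : Fin K, t i < t j → i < j := by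
    intro i j hij
    rcases lt_trichotomy i j with h1 | h1 | h1
    · exact h1
    · rw [h1] at hij
      exact absurd hij (lt_irrefl _)
    · have h2 := htlt j i h1
      have h3 : (t i : ℝ) < t j := by exact_mod_cast hij
      linarith
  have htH : ∀ j, H < (t j : ℝ) := fun j => (hylow j).trans_lt (htl j)
  have htF : ∀ j, (t j : ℝ) ≤ C * H := fun j => (htu j).trans (hyup j)
  have htyy : ∀ j, yy X < t j := by
    intro j
    have h0 : 0 ≤ Real.log X := by linarith
    have h1 : (yy X : ℝ) ≤ Real.log X / 1000 := Nat.floor_le (by positivity)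
    have h4 := hylow j
    have h5 := htl j
    have h6 : (yy X : ℝ) < t j := by linarith
    exact_mod_cast h6
  obtain ⟨n₀, hn1, hn2, hn3, hsum, hn4, hn5⟩ := hX1 X hXX1 t htinj
    (fun j => ⟨htp j, htyy j, (htF j).trans (by linarith)⟩) bad hbad
  have hqn : ∀ p : ℕ, p.Prime → p ∣ q → p ∣ n₀ := fun p hp hpq => hn5 p hp (Nat.le_of_dvd hq0 hpq)
  have hcop1 : (n₀ + 1).Coprime q := by
    by_contra hcon
    obtain ⟨p, hp, hp1, hp2⟩ := Nat.Prime.not_coprime_iff_dvd.1 hcon
    have h1 := hqn p hp hp2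
    have h2 : p ∣ 1 := (Nat.dvd_add_right h1).1 hp1
    exact hp.one_lt.ne' (Nat.dvd_one.1 h2)
  have hinf : (Set.ofPred Nat.Prime).Infinite := Nat.infinite_setOfPred_prime
  obtain ⟨P, hP⟩ : ∃ P : Finset (Fin K), P = univ.filter (fun j => (n₀ + t j).Prime) := ⟨_, rfl⟩
  have hPmem : ∀ j, j ∈ P ↔ (n₀ + t j).Prime := by
    intro j
    rw [hP]
    simp only [mem_filter, mem_univ, true_and]
  refine ⟨n₀, ZMod.unitOfCoprime _ hcop1, P, hn1, hn2, hn3, ?_, ?_, ?_⟩
  · intro hsq
    have h1 : q ∣ n₀ := Pool.Agent.H362R2.RQ.dvd_of_primes q n₀ hsq hqn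
    apply Units.ext
    rw [ZMod.coe_unitOfCoprime]
    push_cast
    rw [(ZMod.natCast_eq_zero_iff _ _).2 h1]
    simp
  · refine hsum.trans (le_of_eq ?_)
    apply sum_congr rfl
    intro g _
    congr 2
    ext j
    simp only [mem_filter]
    rw [hPmem]
  · intro m x hxP hx hno
    -- the primes of the run
    obtain ⟨tt, htt⟩ : ∃ tt : ℕ → ℕ, tt = fun i => t (x ⟨min i m, by omega⟩) := ⟨_, rfl⟩
    have htj : ∀ i : Fin (m + 1), tt i = t (x i) := by
      intro i
      rw [htt]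
      simp only
      congr 2
      apply Fin.ext
      simp only
      omega
    have htj' : ∀ i (hi : i < m + 1), tt i = t (x ⟨i, hi⟩) := fun i hi => htj ⟨i, hi⟩
    have hpr : ∀ i ≤ m, (n₀ + tt i).Prime := by
      intro i hi
      rw [htj' i (by omega), ← hPmem]
      exact hxP _
    have hlt : ∀ i < m, H < (tt (i + 1) : ℝ) - tt i := by
      intro i hi
      rw [htj' i (by omega), htj' (i + 1) (by omega)]
      apply htlt
      apply hx
      rw [Fin.lt_def]
      simp
    have hltn : ∀ i < m, tt i < tt (i + 1) := by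
      intro i hi
      have h1 := hlt i hi
      have h2 : (tt i : ℝ) < tt (i + 1) := by linarith
      exact_mod_cast h2
    -- a prime of the window
    have hwin : ∀ r : ℕ, r.Prime → n₀ ≤ r → (r : ℝ) ≤ n₀ + c0 * ff X → ∃ j ∈ P, r = n₀ + t j := by
      intro r hr h1 h2
      obtain ⟨s, rfl⟩ := Nat.exists_eq_add_of_le h1
      obtain ⟨j, hj⟩ := hn4 s (by push_cast at h2; linarith) hr
      exact ⟨j, (hPmem j).2 (by rw [← hj]; exact hr), by rw [hj]⟩
    have hrun := nth_run (fun i => n₀ + tt i) m (fun i hi => hpr i hi) (fun i hi => by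
      have := hltn i hi
      omega) (by
      intro i hi r hr1 hr2 hr
      have e1 := htj' i (by omega)
      have e2 := htj' (i + 1) (by omega)
      obtain ⟨j, hjP, hj⟩ := hwin r hr (by omega) (by
        have h9 : (r : ℝ) ≤ (n₀ + tt (i + 1) : ℕ) := by exact_mod_cast hr2.le
        rw [e2] at h9
        push_cast at h9
        have := htF (x ⟨i + 1, by omega⟩)
        linarith)
      rw [hj, e1] at hr1
      rw [hj, e2] at hr2
      exact hno j hjP ⟨i, hi⟩ (htrk (x ⟨i, by omega⟩) j (by omega)) (htrk j (x ⟨i + 1, by omega⟩) (by omega)))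
    obtain ⟨N₁, hN₁⟩ : ∃ N₁, N₁ = Nat.count Nat.Prime (n₀ + tt 0) := ⟨_, rfl⟩
    rw [← hN₁] at hrun
    have hN1 : 1 ≤ N₁ := by
      rw [hN₁]
      have h3 : 3 ≤ n₀ + tt 0 := by
        have : (3 : ℝ) < n₀ := by linarith
        have : 3 < n₀ := by exact_mod_cast this
        omega
      have h4 := Nat.count_monotone Nat.Prime h3
      have h5 : Nat.count Nat.Prime 3 = 1 := by decide
      omega
    obtain ⟨n, hn⟩ : ∃ n, N₁ = n + 1 := ⟨N₁ - 1, by omega⟩
    rw [hn] at hrun
    have hrunr : ∀ i ≤ m, (Nat.nth Nat.Prime (n + 1 + i) : ℝ) = n₀ + tt i := by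
      intro i hi
      rw [hrun i hi]
      push_cast
      rfl
    have hcopP : ∀ i : Fin (m + 1), (n₀ + tt i).Coprime q := by
      intro i
      rw [(hpr i (by omega)).coprime_iff_not_dvd]
      intro hdvd
      have h1 := Nat.le_of_dvd hq0 hdvd
      have h2 : ((n₀ + tt i : ℕ) : ℝ) ≤ q := by exact_mod_cast h1
      push_cast at h2
      have h3 : (0 : ℝ) ≤ tt i := Nat.cast_nonneg _
      linarith
    -- all the gaps
    have hgap : ∀ i ≤ m + 1, H ≤ (Nat.nth Nat.Prime (n + i + 1) : ℝ) - Nat.nth Nat.Prime (n + i) := by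
      intro i hi
      rcases Nat.eq_zero_or_pos i with rfl | hi0
      · -- the gap before
        have e1 := hrunr 0 (Nat.zero_le _)
        have e2 : n + 1 + 0 = n + 0 + 1 := by ring
        rw [e2] at e1
        rw [e1]
        rcases le_or_gt (Nat.nth Nat.Prime (n + 0)) n₀ with h1 | h1
        · have h2 : (Nat.nth Nat.Prime (n + 0) : ℝ) ≤ n₀ := by exact_mod_cast h1
          have h3 := htH (x ⟨0, by omega⟩)
          rw [← htj' 0 (by omega)] at h3
          linarith
        · have h2 : Nat.nth Nat.Prime (n + 0) < n₀ + tt 0 := by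
            have := Nat.nth_strictMono hinf (show n + 0 < n + 0 + 1 by omega)
            have h3 := hrun 0 (Nat.zero_le _)
            rw [e2] at h3
            omega
          obtain ⟨j, hjP, hj⟩ := hwin _ (Nat.prime_nth_prime (n + 0)) h1.le (by
            have h3 : (Nat.nth Nat.Prime (n + 0) : ℝ) ≤ (n₀ + tt 0 : ℕ) := by exact_mod_cast h2.le
            rw [htj' 0 (by omega)] at h3
            push_cast at h3
            have := htF (x ⟨0, by omega⟩)
            linarith)
          rw [hj]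
          rw [hj, htj' 0 (by omega)] at h2
          have h3 := htlt _ _ (htrk j (x ⟨0, by omega⟩) (by omega))
          rw [htj' 0 (by omega)]
          push_cast
          linarith
      · obtain ⟨i', rfl⟩ : ∃ i', i = i' + 1 := ⟨i - 1, by omega⟩
        have e1 := hrunr i' (by omega)
        have e2 : n + 1 + i' = n + (i' + 1) := by ring
        rw [e2] at e1
        rw [e1]
        have h0 : n₀ + tt i' < Nat.nth Nat.Prime (n + (i' + 1) + 1) := by
          have := Nat.nth_strictMono hinf (show n + (i' + 1) < n + (i' + 1) + 1 by omega)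
          have h3 := hrun i' (by omega)
          rw [e2] at h3
          omega
        rcases le_or_gt ((Nat.nth Nat.Prime (n + (i' + 1) + 1) : ℕ) : ℝ) (n₀ + c0 * ff X) with h1 | h1
        · obtain ⟨j, hjP, hj⟩ := hwin _ (Nat.prime_nth_prime _) (by omega) h1
          rw [hj]
          rw [hj, htj' i' (by omega)] at h0
          have h3 := htlt _ _ (htrk (x ⟨i', by omega⟩) j (by omega))
          rw [htj' i' (by omega)]
          push_cast
          linarith
        · have h3 := htF (x ⟨i', by omega⟩)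
          rw [← htj' i' (by omega)] at h3
          linarith
    refine ⟨n, fun i => ZMod.unitOfCoprime _ (hcopP i), ?_, ?_, ?_, ?_, hgap, ?_⟩
    · intro i
      rw [ZMod.coe_unitOfCoprime, ZMod.coe_unitOfCoprime, htj]
      have h1 := hta (x i)
      have h3 := (ZMod.natCast_eq_natCast_iff _ _ _).2 h1
      rw [ZMod.natCast_zmod_val] at h3
      push_cast
      rw [h3]
      ring
    · have := hrun 0 (Nat.zero_le _)
      rw [Nat.add_zero] at this
      omega
    · have e1 := hrunr m le_rfl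
      have e2 : n + 1 + m = n + (m + 1) := by ring
      rw [e2] at e1
      rw [e1, htj' m (by omega)]
      have := htF (x ⟨m, by omega⟩)
      linarith
    · intro i
      rw [ZMod.coe_unitOfCoprime, hrun i (by omega)]
    · intro i hi1 hi2
      obtain ⟨i', rfl⟩ : ∃ i', i = i' + 1 := ⟨i - 1, by omega⟩
      have e1 := hrunr i' (by omega)
      have e2 : n + 1 + i' = n + (i' + 1) := by ring
      rw [e2] at e1
      have e3 := hrunr (i' + 1) (by omega)
      have e4 : n + 1 + (i' + 1) = n + (i' + 1) + 1 := by ring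
      rw [e4] at e3
      rw [e1, e3, htj' (i' + 1) (by omega)]
      have h1 := htF (x ⟨i' + 1, by omega⟩)
      have h2 : (0 : ℝ) ≤ tt i' := Nat.cast_nonneg _
      linarith

end Pool.Agent.T6.H2.RS
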